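import Mathlib
import Pool.Agent.helper72.SqT
import Pool.Agent.helper68.AM.SpecX

/-! sl:XG : curves whose lengths control the lengths of `φ a`, `φ b` fill -/

set_option autoImplicit false

namespace AM

open Pool.Agent.helper72.Sq Matrix

lemma XG_aux (ρ : F2 →* SpecialLinearGroup (Fin 2) ℝ)
    (hfin : ∀ R, {x : orb ga | cLen ρ x ≤ R}.Finite) (D : ℝ) {χ : MulAut F2} (hχ : χ ∈ MCG)
    (hle : ∀ k : ℕ, cLen ρ (cl (((twA : MulAut F2) ^ k * χ) ga)) ≤ D) :
    (ab (χ ga)).toAdd.2 = 0 := by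
  have hA : twA ∈ MCG := Subgroup.subset_closure (by simp)
  have hk : ∀ k : ℕ, ((twA : MulAut F2) ^ k * χ) ∈ MCG := fun k =>
    MCG.mul_mem (MCG.pow_mem hA k) hχ
  have hS := hfin D
  have : Finite {x : orb ga | cLen ρ x ≤ D} := hS
  obtain ⟨k, k', hkk, heq⟩ := Finite.exists_ne_map_eq_of_infinite
    (fun k : ℕ => (⟨⟨cl (((twA : MulAut F2) ^ k * χ) ga), _, hk k, rfl⟩, hle k⟩ :
      {x : orb ga | cLen ρ x ≤ D}))
  have heq2 : cl (((twA : MulAut F2) ^ k * χ) ga) = cl (((twA : MulAut F2) ^ k' * χ) ga) := by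
    have := congrArg (fun z => ((z : {x : orb ga | cLen ρ x ≤ D}) : orb ga).1) heq
    exact this
  have hab := ab_cl heq2
  rw [MulAut.mul_apply, MulAut.mul_apply] at hab
  have t1 := ab_twA_pow (χ ga) k
  have t2 := ab_twA_pow (χ ga) k'
  have hab2 : (ab (((twA : MulAut F2) ^ k) (χ ga))).toAdd = (ab (((twA : MulAut F2) ^ k') (χ ga))).toAdd ∨
      (ab (((twA : MulAut F2) ^ k) (χ ga))).toAdd = -(ab (((twA : MulAut F2) ^ k') (χ ga))).toAdd := by
    rcases hab with h | h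
    · left; rw [h]
    · right; rw [h]; rfl
  rw [t1, t2] at hab2
  have hkk' : (k : ℤ) ≠ k' := by exact_mod_cast hkk
  rcases hab2 with h | h
  · have h3 := congrArg Prod.fst h
    simp only at h3
    have h4 : ((k : ℤ) - k') * (ab (χ ga)).toAdd.2 = 0 := by linarith
    rcases mul_eq_zero.1 h4 with h5 | h5
    · omega
    · exact h5
  · have h3 := congrArg Prod.snd h
    simp only [Prod.neg_mk] at h3
    omega

lemma XG_b : ∃ φ0 : MulAut F2, φ0 ∈ MCG ∧ φ0 ga = gb := by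
  have hA : twA ∈ MCG := Subgroup.subset_closure (by simp)
  have hB : twB ∈ MCG := Subgroup.subset_closure (by simp)
  refine ⟨twB * twA⁻¹ * twB, MCG.mul_mem (MCG.mul_mem hB (MCG.inv_mem hA)) hB, ?_⟩
  simp only [MulAut.mul_apply, twB_a]
  rw [map_mul]
  change twB (twA.symm ga * twA.symm gb) = gb
  simp

theorem XG : XG_stmt := by
  intro ρ γ C hfin hC hNF
  obtain ⟨φ, hφ, w, hw, hconj⟩ := hNF
  have hA : twA ∈ MCG := Subgroup.subset_closure (by simp)
  have hk : ∀ k : ℕ, ((twA : MulAut F2) ^ k * φ) ∈ MCG := fun k =>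
    MCG.mul_mem (MCG.pow_mem hA k) hφ
  have hG : ∀ k : ℕ, gLen ρ (((twA : MulAut F2) ^ k * φ) γ) = gLen ρ w := by
    intro k
    rw [MulAut.mul_apply]
    have h1 : cl (((twA : MulAut F2) ^ k) w) = cl w := twA_pow_pants hw k
    have h3 : cl (((twA : MulAut F2) ^ k) (φ γ)) = cl (((twA : MulAut F2) ^ k) w) :=
      cl_map ((twA : MulAut F2) ^ k).toMonoidHom (cl_of_isConj hconj)
    rw [← cLen_cl, ← cLen_cl, h3, h1]
  set D := C * gLen ρ w + C with hD
  have hmax : ∀ k : ℕ, gLen ρ (((twA : MulAut F2) ^ k * φ) ga) ≤ D ∧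
      gLen ρ (((twA : MulAut F2) ^ k * φ) gb) ≤ D := by
    intro k
    have h := hC _ (hk k)
    rw [hG k] at h
    exact ⟨(le_max_left _ _).trans h, (le_max_right _ _).trans h⟩
  obtain ⟨φ0, hφ0, hφ0a⟩ := XG_b
  have h1 : (ab (φ ga)).toAdd.2 = 0 := by
    apply XG_aux ρ hfin D hφ
    intro k
    rw [cLen_cl]
    exact (hmax k).1
  have h2 : (ab (φ gb)).toAdd.2 = 0 := by
    have := XG_aux ρ hfin D (χ := φ * φ0) (MCG.mul_mem hφ hφ0) (by
      intro k
      rw [cLen_cl, ← mul_assoc, MulAut.mul_apply, hφ0a]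
      exact (hmax k).2)
    rwa [MulAut.mul_apply, hφ0a] at this
  -- the second coordinate of homology vanishes identically
  let s : F2 →* Multiplicative ℤ :=
    ((AddMonoidHom.toMultiplicative (AddMonoidHom.snd ℤ ℤ)).comp ab).comp φ.toMonoidHom
  have hs : s = 1 := by
    apply F2_hom_ext
    · exact h1
    · exact h2
  have h3 := DFunLike.congr_fun hs (φ.symm gb)
  have h4 : s (φ.symm gb) = (AddMonoidHom.toMultiplicative (AddMonoidHom.snd ℤ ℤ)) (ab gb) := by
    show (AddMonoidHom.toMultiplicative (AddMonoidHom.snd ℤ ℤ)) (ab (φ (φ.symm gb))) = _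
    rw [MulEquiv.apply_symm_apply]
  rw [h4] at h3
  have h5 : (ab gb).toAdd.2 = 0 := h3
  simp [ab] at h5

end AM
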