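import Mathlib
import Pool.Agent.helper68.AM.Spec

/-!
Project sl: (AM), module EM: exponential sum with phase `α / m`.
-/

set_option autoImplicit false

namespace AM

open Pool.Agent.helper72.Sq Finset

lemma EM_ee_neg (t : ℝ) : ee (-t) = (starRingEnd ℂ) (ee t) := by
  unfold ee
  rw [← Complex.exp_conj]
  congr 1
  rw [map_mul, Complex.conj_ofReal, Complex.conj_I]
  push_cast
  ring

lemma EM_norm (s : Finset ℕ) (f : ℕ → ℝ) : ‖∑ k ∈ s, ee (-(f k))‖ = ‖∑ k ∈ s, ee (f k)‖ := by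
  have h : ∑ k ∈ s, ee (-(f k)) = (starRingEnd ℂ) (∑ k ∈ s, ee (f k)) := by
    rw [map_sum]
    exact Finset.sum_congr rfl fun k _ => EM_ee_neg _
  rw [h, RCLike.norm_conj]

theorem EM (hKL : KL_stmt) : EM_stmt := by
  intro α M1 M2 hα h1 h12 hαM
  have hM1 : (1 : ℝ) ≤ M1 := by exact_mod_cast h1
  have hM12 : (M1 : ℝ) ≤ M2 := by exact_mod_cast h12
  have hM2 : (0 : ℝ) < M2 := by linarith
  have hθ0 : 0 < α / (M2 : ℝ) ^ 2 := by positivity
  have hsq : (M1 : ℝ) ^ 2 ≤ (M2 : ℝ) ^ 2 := by nlinarith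
  have hθ : α / (M2 : ℝ) ^ 2 ≤ 1 / 2 := by
    rw [div_le_iff₀ (by positivity)]
    linarith
  have hinc : ∀ k : ℕ, -(α / ((M1 : ℝ) + (k + 1 : ℕ))) - -(α / ((M1 : ℝ) + k)) =
      α / (((M1 : ℝ) + k) * ((M1 : ℝ) + k + 1)) := by
    intro k
    have hk : (0 : ℝ) ≤ k := Nat.cast_nonneg k
    push_cast
    have e1 : (M1 : ℝ) + k ≠ 0 := by positivity
    have e2 : (M1 : ℝ) + ((k : ℝ) + 1) ≠ 0 := by positivity
    have e3 : (M1 : ℝ) + (k : ℝ) + 1 ≠ 0 := by positivity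
    field_simp
    ring
  have key := hKL (M2 - M1) (fun k => -(α / ((M1 : ℝ) + k))) (α / (M2 : ℝ) ^ 2) hθ0 hθ
    (by
      intro k hk
      have hk0 : (0 : ℝ) ≤ k := Nat.cast_nonneg k
      show α / (M2 : ℝ) ^ 2 ≤ -(α / ((M1 : ℝ) + (k + 1 : ℕ))) - -(α / ((M1 : ℝ) + k))
      rw [hinc k]
      have hk1 : (M1 : ℝ) + k + 1 ≤ M2 := by
        have : M1 + k + 1 ≤ M2 := by omega
        exact_mod_cast this
      apply div_le_div_of_nonneg_left hα.le (by positivity)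
      nlinarith)
    (by
      intro k hk
      have hk0 : (0 : ℝ) ≤ k := Nat.cast_nonneg k
      show -(α / ((M1 : ℝ) + (k + 1 : ℕ))) - -(α / ((M1 : ℝ) + k)) ≤ 1 - α / (M2 : ℝ) ^ 2
      rw [hinc k]
      have h3 : α / (((M1 : ℝ) + k) * ((M1 : ℝ) + k + 1)) ≤ 1 / 2 := by
        rw [div_le_iff₀ (by positivity)]
        nlinarith
      linarith)
    (by
      intro k hk
      have hk0 : (0 : ℝ) ≤ k := Nat.cast_nonneg k
      have e1 := hinc (k + 1)
      have e2 := hinc k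
      show -(α / ((M1 : ℝ) + (k + 2 : ℕ))) - -(α / ((M1 : ℝ) + (k + 1 : ℕ))) ≤
        -(α / ((M1 : ℝ) + (k + 1 : ℕ))) - -(α / ((M1 : ℝ) + k))
      have e3 : -(α / ((M1 : ℝ) + (k + 2 : ℕ))) - -(α / ((M1 : ℝ) + (k + 1 : ℕ))) =
        α / (((M1 : ℝ) + (k + 1 : ℕ)) * ((M1 : ℝ) + (k + 1 : ℕ) + 1)) := e1
      rw [e3, e2]
      apply div_le_div_of_nonneg_left hα.le (by positivity)
      push_cast
      nlinarith)
  have hsum : ∑ m ∈ Icc M1 M2, ee (α / m) = ∑ k ∈ range (M2 - M1 + 1), ee (α / ((M1 : ℝ) + k)) := by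
    have hI : Icc M1 M2 = Ico M1 (M2 + 1) := by
      ext m
      simp only [Finset.mem_Icc, Finset.mem_Ico]
      omega
    rw [hI, Finset.sum_Ico_eq_sum_range]
    have : M2 + 1 - M1 = M2 - M1 + 1 := by omega
    rw [this]
    apply Finset.sum_congr rfl
    intro k _
    push_cast
    rfl
  rw [hsum, ← EM_norm]
  refine key.trans (le_of_eq ?_)
  rw [one_div_div]

end AM
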