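import Mathlib
import Pool.Agent.helper68.AM.Spec

/-!
Project sl: (AM), module GE: properties of the one-sided derivatives.
-/

set_option autoImplicit false

namespace AM

open Pool.Agent.helper72.Sq Finset

lemma GE_exp {t : ℝ} (ht : 2 < t) :
    1 < Real.exp (len t / 2) ∧ Real.exp (len t / 2) + (Real.exp (len t / 2))⁻¹ = t := by
  constructor
  · have := len_pos ht
    rw [Real.one_lt_exp_iff]
    linarith
  · have h := cosh_half_len ht.le
    rw [Real.cosh_eq, Real.exp_neg] at h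
    linarith

lemma GE_log_exp (t : ℝ) : 2 * Real.log (Real.exp (len t / 2)) = len t := by
  rw [Real.log_exp]; ring

/-- symmetric core: with `a + 1/a = x`, `z ≥ xy/2`, the number `(z - y/a)/(a - 1/a)` is `≥ y/2` -/
lemma GE_core {x y z a : ℝ} (ha : 1 < a) (hx : a + a⁻¹ = x) (hy : 2 < y) (hz : x * y ≤ 2 * z) :
    0 < a - a⁻¹ ∧ y / 2 ≤ (z - y * a⁻¹) / (a - a⁻¹) := by
  have ha0 : 0 < a := by linarith
  have hai : a⁻¹ < 1 := inv_lt_one_of_one_lt₀ ha
  have hd : 0 < a - a⁻¹ := by linarith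
  refine ⟨hd, ?_⟩
  rw [le_div_iff₀ hd]
  subst hx
  nlinarith

lemma GE_upper {x y z a b : ℝ} (ha : 1 < a) (hb : 1 < b) (hy : b + b⁻¹ = y)
    (hz : z ≤ a * b + a⁻¹ * b⁻¹) : (z - y * a⁻¹) / (a - a⁻¹) ≤ b := by
  have ha0 : 0 < a := by linarith
  have hai : a⁻¹ < 1 := inv_lt_one_of_one_lt₀ ha
  have hd : 0 < a - a⁻¹ := by linarith
  rw [div_le_iff₀ hd]
  subst hy
  nlinarith

lemma GE_z {Q : Tri} (h : Gr Q) :
    Q.2.2 ≤ Real.exp (len Q.1 / 2) * Real.exp (len Q.2.1 / 2) +
      (Real.exp (len Q.1 / 2))⁻¹ * (Real.exp (len Q.2.1 / 2))⁻¹ := by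
  have h1 := h.len_z_le
  have h2 := cosh_half_len h.z2.le
  have h3 : Real.cosh (len Q.2.2 / 2) ≤ Real.cosh (len Q.1 / 2 + len Q.2.1 / 2) := by
    rw [Real.cosh_le_cosh]
    have e0 := len_nonneg h.z2.le
    have e1 := len_nonneg h.x2.le
    have e2 := len_nonneg h.y2.le
    rw [abs_of_nonneg (by linarith), abs_of_nonneg (by linarith)]
    linarith
  have h4 : Real.cosh (len Q.1 / 2 + len Q.2.1 / 2) =
      (Real.exp (len Q.1 / 2) * Real.exp (len Q.2.1 / 2) +
      (Real.exp (len Q.1 / 2))⁻¹ * (Real.exp (len Q.2.1 / 2))⁻¹) / 2 := by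
    rw [Real.cosh_eq, Real.exp_add, Real.exp_neg, Real.exp_add, mul_inv]
  rw [h4] at h3
  linarith

theorem GE : GE_stmt := by
  intro Q h
  obtain ⟨x, y, z⟩ := Q
  have hx := h.x2
  have hy := h.y2
  have hz := h.z2
  have hb := h.zbig
  have hk := h.kpos
  have hzz := GE_z h
  simp only at hx hy hz hb hzz
  obtain ⟨ha1, hax⟩ := GE_exp hx
  obtain ⟨hb1, hby⟩ := GE_exp hy
  obtain ⟨hc1, hcz⟩ := GE_exp hz
  have hlx := GE_log_exp x
  have hly := GE_log_exp y
  have hlz := GE_log_exp z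
  have hkap : kap (x, y, z) = x * y * z - x ^ 2 - y ^ 2 - z ^ 2 := rfl
  rw [hkap] at hk
  simp only [E1, E2, Lm, Rm, ltau, Real.exp_neg]
  set a := Real.exp (len x / 2) with ha
  set b := Real.exp (len y / 2) with hbdef
  set c := Real.exp (len z / 2) with hc
  have ha0 : 0 < a := by linarith
  have hb0 : 0 < b := by linarith
  have hc0 : 0 < c := by linarith
  have haa : a * a⁻¹ = 1 := mul_inv_cancel₀ ha0.ne'
  have hbb : b * b⁻¹ = 1 := mul_inv_cancel₀ hb0.ne'
  have hcc : c * c⁻¹ = 1 := mul_inv_cancel₀ hc0.ne'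
  obtain ⟨hda, hlow1⟩ := GE_core ha1 hax hy hb
  obtain ⟨hdb, hlow2⟩ := GE_core (x := y) (y := x) (z := z) hb1 hby hx (by linarith)
  have hdc : 0 < c - c⁻¹ := by
    have : c⁻¹ < 1 := inv_lt_one_of_one_lt₀ hc1
    linarith
  have hup1 := GE_upper (x := x) ha1 hb1 hby hzz
  have hup2 := GE_upper (x := y) hb1 ha1 hax (by linarith : z ≤ b * a + b⁻¹ * a⁻¹)
  have hpos1 : 0 < (z - y * a⁻¹) / (a - a⁻¹) := by linarith
  have hpos2 : 0 < (z - x * b⁻¹) / (b - b⁻¹) := by linarith
  refine ⟨?_, ?_, ?_, ?_, ?_, ?_, ?_⟩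
  · have e : (x * z - y - z * a⁻¹) / (a - a⁻¹) = a * ((z - y * a⁻¹) / (a - a⁻¹)) := by
      rw [← mul_div_assoc]
      congr 1
      rw [← hax]
      linear_combination y * haa
    rw [e, Real.log_mul ha0.ne' hpos1.ne', mul_add, hlx]
    ring
  · have e : (z * y - x - z * b⁻¹) / (b - b⁻¹) = b * ((z - x * b⁻¹) / (b - b⁻¹)) := by
      rw [← mul_div_assoc]
      congr 1
      rw [← hby]
      linear_combination x * hbb
    rw [e, Real.log_mul hb0.ne' hpos2.ne', mul_add, hly]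
    ring
  · have := Real.log_le_log (by linarith) hlow1
    linarith
  · have := Real.log_le_log hpos1 hup1
    linarith
  · have := Real.log_le_log (by linarith) hlow2
    linarith
  · have := Real.log_le_log hpos2 hup2
    linarith
  · -- the corner
    have hxz : x ≤ z := h.xz
    have hyz : y ≤ z := h.yz
    have hp1 : 0 < x * c - y := by nlinarith
    have hp2 : 0 < y * c - x := by nlinarith
    have e1 : x * z - y - x * c⁻¹ = x * c - y := by rw [← hcz]; ring
    have e2 : z * y - x - y * c⁻¹ = y * c - x := by rw [← hcz]; ring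
    rw [e1, e2]
    have hz4 : (c - c⁻¹) ^ 2 = z ^ 2 - 4 := by
      rw [← hcz]
      linear_combination (-4) * hcc
    have hz40 : 0 < z ^ 2 - 4 := by nlinarith
    have hprod : (x * c - y) / (c - c⁻¹) * ((y * c - x) / (c - c⁻¹)) =
        c * ((x * y * z - x ^ 2 - y ^ 2) / (z ^ 2 - 4)) := by
      rw [div_mul_div_comm, ← hz4, ← sq, ← mul_div_assoc]
      congr 1
      rw [← hcz]
      linear_combination (-(x * y)) * hcc
    have hq : 1 + 4 / z ^ 2 ≤ (x * y * z - x ^ 2 - y ^ 2) / (z ^ 2 - 4) := by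
      rw [le_div_iff₀ hz40]
      have h5 : (1 + 4 / z ^ 2) * (z ^ 2 - 4) = z ^ 2 - 16 / z ^ 2 := by
        field_simp
        ring
      rw [h5]
      have : 0 < 16 / z ^ 2 := by positivity
      linarith
    have hu1 : 4 / z ^ 2 ≤ 1 := by
      rw [div_le_one (by positivity)]
      nlinarith
    have hu0 : 0 < 4 / z ^ 2 := by positivity
    have hlog1 : 4 / z ^ 2 / 2 ≤ Real.log (1 + 4 / z ^ 2) := by
      have h6 := Real.one_sub_inv_le_log_of_pos (x := 1 + 4 / z ^ 2) (by linarith)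
      have h7 : 4 / z ^ 2 / 2 ≤ 1 - (1 + 4 / z ^ 2)⁻¹ := by
        have h8 : 1 - (1 + 4 / z ^ 2)⁻¹ = (4 / z ^ 2) / (1 + 4 / z ^ 2) := by
          field_simp
          ring
        rw [h8]
        apply div_le_div_of_nonneg_left hu0.le (by linarith) (by linarith)
      linarith
    have hlog2 : Real.log (1 + 4 / z ^ 2) ≤
        Real.log ((x * y * z - x ^ 2 - y ^ 2) / (z ^ 2 - 4)) :=
      Real.log_le_log (by linarith) hq
    have hsum : Real.log ((x * c - y) / (c - c⁻¹)) + Real.log ((y * c - x) / (c - c⁻¹)) =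
        Real.log c + Real.log ((x * y * z - x ^ 2 - y ^ 2) / (z ^ 2 - 4)) := by
      rw [← Real.log_mul (div_pos hp1 hdc).ne' (div_pos hp2 hdc).ne', hprod,
        Real.log_mul hc0.ne' (by linarith)]
    have hexp : (Real.exp (len z))⁻¹ ≤ 4 / z ^ 2 := by
      have h9 : Real.exp (len z) = c ^ 2 := by
        rw [hc, ← Real.exp_nat_mul]
        congr 1
        push_cast
        ring
      rw [h9, ← one_div, div_le_div_iff₀ (by positivity) (by positivity)]
      have h10 : z ≤ 2 * c := by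
        rw [← hcz]
        have : c⁻¹ < 1 := inv_lt_one_of_one_lt₀ hc1
        linarith
      nlinarith
    have hlc : 2 * Real.log c = len z := hlz
    linarith

end AM
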