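import Mathlib
import Pool.Agent.helper68.AM.Spec
import Pool.Agent.helper68.AM.Tree

/-!
Project sl: (AM), module SSB: total size of the sawtooth sums.
-/

set_option autoImplicit false

namespace AM

open Pool.Agent.helper72.Sq Finset

lemma SSB_ev (K b : ℝ) (hb : 0 < b) (k : ℕ) :
    ∀ᶠ j : ℕ in Filter.atTop, K * (j : ℝ) ^ k ≤ Real.exp (b * j) := by
  have h1 := (isLittleO_pow_exp_pos_mul_atTop k hb).const_mul_left K
  have h2 := h1.comp_tendsto (tendsto_natCast_atTop_atTop (R := ℝ))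
  have h3 := h2.bound (c := 1) one_pos
  filter_upwards [h3] with j hj
  simp only [Function.comp_apply, one_mul, Real.norm_eq_abs, Real.abs_exp] at hj
  exact (le_abs_self _).trans hj

/-- lower bound for `2 ^ (j / 2)` -/
lemma SSB_pow (j : ℕ) : Real.exp (2 * (Real.log 2 / 4) * j) ≤ 2 * (2 : ℝ) ^ (j / 2) := by
  have h1 : (2 : ℝ) * 2 ^ (j / 2) = Real.exp (Real.log 2 * ((j / 2 : ℕ) + 1)) := by
    have : (2 : ℝ) * 2 ^ (j / 2) = (2 : ℝ) ^ (j / 2 + 1) := by rw [pow_succ]; ring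
    rw [this, ← Real.rpow_natCast, Real.rpow_def_of_pos two_pos]
    push_cast
    rfl
  rw [h1, Real.exp_le_exp]
  have h2 : (j : ℝ) ≤ 2 * ((j / 2 : ℕ) : ℝ) + 1 := by
    have : j ≤ 2 * (j / 2) + 1 := by omega
    exact_mod_cast this
  have h3 : 0 < Real.log 2 := Real.log_pos one_lt_two
  nlinarith

/-- pointwise bound for the sawtooth sum from a good rational approximation -/
lemma SSB_point (l1 l2 r : ℝ) (h2 : 0 < l2) (hr : 0 ≤ r) (q : ℚ) (n : ℕ)
    (hq : |l2 / l1 - q| ≤ 1 / ((n + 1) * q.den)) (hqn : q.den ≤ n) :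
    |SS l1 l2 r| ≤ 5 / 2 * ((r / l2 + 1) / q.den) + q.den / 2 := by
  have hs : 1 ≤ q.den := q.pos
  have hs0 : (0 : ℝ) < q.den := by exact_mod_cast hs
  have hcop : IsCoprime q.num (q.den : ℤ) := by
    rw [Int.isCoprime_iff_gcd_eq_one]
    exact q.reduced
  have hα : |l2 / l1 - (q.num : ℝ) / q.den| ≤ 1 / (q.den : ℝ) ^ 2 := by
    rw [← Rat.cast_def]
    refine hq.trans ?_
    apply one_div_le_one_div_of_le (by positivity)
    rw [sq]
    apply mul_le_mul_of_nonneg_right _ hs0.le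
    have : (q.den : ℝ) ≤ n := by exact_mod_cast hqn
    linarith
  have h := psi_sum' q.den hs q.num hcop (l2 / l1) hα (r / l1) (⌊r / l2⌋₊ + 1)
  unfold SS ps
  refine h.trans ?_
  have hfl : ((⌊r / l2⌋₊ + 1 : ℕ) : ℝ) ≤ r / l2 + 1 := by
    push_cast
    have := Nat.floor_le (a := r / l2) (by positivity)
    linarith
  have : ((⌊r / l2⌋₊ + 1 : ℕ) : ℝ) / q.den ≤ (r / l2 + 1) / q.den :=
    div_le_div_of_nonneg_right hfl hs0.le
  linarith

theorem SSB (hRS : RS_stmt) : SSB_stmt := by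
  intro P C0 hP hC0
  set c := min (ltau P.1) (ltau P.2.1) with hc
  set c' := max (len P.1) (len P.2.1) with hc'
  have hpar := Par_of_Gr hP
  have hc0 : 0 < c := hpar.c0
  have hc'0 : 0 < c' := lt_of_lt_of_le hpar.c0 hpar.cc
  have hC0' : (1 : ℝ) ≤ C0 := by exact_mod_cast hC0
  set κ : ℝ := Real.log 2 / 4 with hκ
  have hlog2 : 0 < Real.log 2 := Real.log_pos one_lt_two
  have hκ0 : 0 < κ := by positivity
  obtain ⟨C, hC, j1, hRSj⟩ := hRS P hP κ hκ0
  have ev1 := SSB_ev (2 * (c' * C0)) κ hκ0 1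
  have ev2 := SSB_ev (2 / c) κ hκ0 0
  have ev3 := SSB_ev 2 (2 * κ) (by positivity) 3
  have ev4 := SSB_ev 1 (Real.log 2) hlog2 7
  obtain ⟨j2, hj2⟩ := Filter.eventually_atTop.1 (ev1.and (ev2.and (ev3.and ev4)))
  refine ⟨5 / 2 * C + (C0 : ℝ) ^ 2 * (5 / 2 * (1 / c + 1) + 1 / 2 + 5 / 2 + 1 / 2), by positivity,
    max (max j1 j2) 1, ?_⟩
  intro j hj r hr1 _
  have hjj1 : j1 ≤ j := (le_max_left _ _).trans ((le_max_left _ _).trans hj)
  have hjj2 : j2 ≤ j := (le_max_right _ _).trans ((le_max_left _ _).trans hj)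
  have hj1 : 1 ≤ j := (le_max_right _ _).trans hj
  obtain ⟨e1, e2, e3, e4⟩ := hj2 j hjj2
  rw [pow_one] at e1
  rw [pow_zero, mul_one] at e2
  have hjR : (1 : ℝ) ≤ j := by exact_mod_cast hj1
  set M := C0 * j with hM
  have hM1 : 1 ≤ M := Nat.mul_pos hC0 hj1
  have hjM : j ≤ M := Nat.le_mul_of_pos_left j hC0
  set n := 2 ^ (j / 2) with hn
  have hnpos : 0 < n := by positivity
  have hnR : (n : ℝ) = (2 : ℝ) ^ (j / 2) := by rw [hn]; push_cast; rfl
  have hpow := SSB_pow j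
  rw [← hnR] at hpow
  have hexp2 : Real.exp (2 * (Real.log 2 / 4) * j) = Real.exp (κ * j) * Real.exp (κ * j) := by
    rw [← Real.exp_add]
    congr 1
    rw [hκ]
    ring
  have h2j : Real.exp (Real.log 2 * j) = (2 : ℝ) ^ j := by
    rw [← Real.rpow_natCast, Real.rpow_def_of_pos two_pos]
  have hr0 : 0 < r := lt_of_lt_of_le (by positivity) hr1
  -- rational approximations
  have hdir : ∀ y : Nd, ∃ q : ℚ, |y.l2 / y.l1 - q| ≤ 1 / ((n + 1) * q.den) ∧ q.den ≤ n := fun y =>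
    Real.exists_rat_abs_sub_le_and_den_le (y.l2 / y.l1) hnpos
  choose q hq1 hq2 using hdir
  set a : Nd → ℕ := fun y => (q y).num.toNat with ha
  set s : Nd → ℕ := fun y => (q y).den with hs
  have hRSb := hRSj j M hjj1 hjM a s
  -- the uniform error
  set E : ℝ := 5 / 2 * ((r / c + 1) / (j : ℝ) ^ 4) + n / 2 + 5 / 2 + (j : ℝ) ^ 4 / 2 with hE
  have hE0 : 0 ≤ E := by positivity
  have hexpκ : 0 < Real.exp (κ * j) := Real.exp_pos _
  have hpt : ∀ y ∈ lvs M M (rt P), |SS y.l1 y.l2 r| ≤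
      5 / 2 * r * (open Classical in if Bad κ j y (a y) (s y) then 1 / (y.l2 * (s y : ℝ)) else 0) +
        E := by
    intro y hy
    have hG := GN_lvs M M (rt P) (GN_rt hP) y hy
    obtain ⟨b1, b2⟩ := lvs_le M M (rt P) (by rw [rt_m1]; exact hM1) (by rw [rt_m2]; exact hM1) y hy
    have hl1 : c ≤ y.l1 := hG.l1_ge' hc0
    have hl2 : c ≤ y.l2 := hG.l2_ge' hc0
    have hl10 : 0 < y.l1 := by linarith
    have hl20 : 0 < y.l2 := by linarith
    have hl1u : y.l1 ≤ c' * (C0 * j) := by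
      refine hG.l1_le.trans ?_
      apply mul_le_mul_of_nonneg_left _ hc'0.le
      have : (y.m1 : ℝ) ≤ (M : ℝ) := by exact_mod_cast b1
      rw [hM] at this
      push_cast at this
      exact this
    have hbound := SSB_point y.l1 y.l2 r hl20 hr0.le (q y) n (hq1 y) (hq2 y)
    have hs1 : 1 ≤ s y := (q y).pos
    have hs0 : (0 : ℝ) < s y := by exact_mod_cast hs1
    have hs1R : (1 : ℝ) ≤ s y := by exact_mod_cast hs1
    have hsn : (s y : ℝ) ≤ n := by exact_mod_cast hq2 y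
    have hden : ((q y).den : ℝ) = s y := rfl
    rw [hden] at hbound
    by_cases hsj : s y ≤ j ^ 4
    · -- resonant leaf
      have hsjR : (s y : ℝ) ≤ (j : ℝ) ^ 4 := by exact_mod_cast hsj
      have hn1 : (0 : ℝ) < (n : ℝ) + 1 := by positivity
      -- `l1 / (n+1) ≤ exp (-κ j)`
      have hsmall : y.l1 / (n + 1) ≤ Real.exp (-(κ * j)) := by
        rw [div_le_iff₀ hn1, Real.exp_neg, inv_mul_eq_div, le_div_iff₀ hexpκ]
        have h5 : 2 * (c' * C0) * j * Real.exp (κ * j) ≤ Real.exp (κ * j) * Real.exp (κ * j) :=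
          mul_le_mul_of_nonneg_right e1 hexpκ.le
        rw [← hexp2] at h5
        have h6 : y.l1 * Real.exp (κ * j) ≤ c' * (C0 * j) * Real.exp (κ * j) :=
          mul_le_mul_of_nonneg_right hl1u hexpκ.le
        nlinarith
      have hq := hq1 y
      rw [hden] at hq
      have hqa : ((q y : ℚ) : ℝ) = ((q y).num : ℝ) / (s y : ℝ) := Rat.cast_def _
      rw [hqa] at hq
      -- the numerator is positive
      have hnum : 1 ≤ (q y).num := by
        by_contra hcon
        have h7 : (q y).num ≤ 0 := by omega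
        have h7R : ((q y).num : ℝ) ≤ 0 := by exact_mod_cast h7
        have h8 : y.l2 / y.l1 ≤ 1 / ((n + 1) * (s y : ℝ)) := by
          have h9 := (le_abs_self _).trans hq
          have h10 : ((q y).num : ℝ) / (s y : ℝ) ≤ 0 := div_nonpos_of_nonpos_of_nonneg h7R hs0.le
          linarith
        have h11 : 1 / (((n : ℝ) + 1) * (s y : ℝ)) ≤ 1 / ((n : ℝ) + 1) := by
          apply one_div_le_one_div_of_le hn1
          nlinarith
        have h12 : y.l2 ≤ y.l1 / (n + 1) := by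
          have h13 := h8.trans h11
          rw [div_le_iff₀ hl10] at h13
          rw [div_eq_mul_one_div, mul_comm]
          exact h13
        have h14 : c ≤ Real.exp (-(κ * j)) := hl2.trans (h12.trans hsmall)
        rw [Real.exp_neg, ← one_div, le_div_iff₀ hexpκ] at h14
        have h15 : 2 / c * c = 2 := div_mul_cancel₀ _ hc0.ne'
        have h16 : 2 / c * c ≤ Real.exp (κ * j) * c := mul_le_mul_of_nonneg_right e2 hc0.le
        linarith
      have haZ : ((a y : ℕ) : ℤ) = (q y).num := Int.toNat_of_nonneg (by omega)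
      have haR : ((a y : ℕ) : ℝ) = ((q y).num : ℝ) := by exact_mod_cast haZ
      have hbad : Bad κ j y (a y) (s y) := by
        refine ⟨?_, hs1, hsj, ?_, ?_⟩
        · have : (1 : ℤ) ≤ (a y : ℕ) := by rw [haZ]; exact hnum
          exact_mod_cast this
        · have h17 := (q y).reduced
          have h18 : (q y).num.natAbs = a y := by
            rw [← Int.natAbs_natCast (a y), haZ]
          rw [h18] at h17
          exact h17
        · have h19 : (s y : ℝ) * y.l2 - (a y : ℝ) * y.l1 =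
              (s y : ℝ) * y.l1 * (y.l2 / y.l1 - ((q y).num : ℝ) / (s y : ℝ)) := by
            rw [haR]
            field_simp
          rw [h19, abs_mul, abs_of_pos (mul_pos hs0 hl10)]
          calc (s y : ℝ) * y.l1 * |y.l2 / y.l1 - ((q y).num : ℝ) / (s y : ℝ)|
              ≤ (s y : ℝ) * y.l1 * (1 / ((n + 1) * (s y : ℝ))) :=
                mul_le_mul_of_nonneg_left hq (mul_pos hs0 hl10).le
            _ = y.l1 / (n + 1) := by field_simp
            _ ≤ _ := hsmall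
      rw [if_pos hbad]
      have h20 : (r / y.l2 + 1) / (s y : ℝ) ≤ r * (1 / (y.l2 * (s y : ℝ))) + 1 := by
        rw [add_div]
        have h21 : r / y.l2 / (s y : ℝ) = r * (1 / (y.l2 * (s y : ℝ))) := by
          field_simp
        have h22 : 1 / (s y : ℝ) ≤ 1 := by
          rw [div_le_one hs0]
          exact hs1R
        linarith
      have h23 : 0 ≤ 5 / 2 * ((r / c + 1) / (j : ℝ) ^ 4) + (n : ℝ) / 2 := by positivity
      rw [hE]
      nlinarith
    · -- good leaf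
      have hbad : ¬ Bad κ j y (a y) (s y) := fun h => hsj h.2.2.1
      rw [if_neg hbad, mul_zero, zero_add]
      have hsj' : (j : ℝ) ^ 4 ≤ (s y : ℝ) := by
        have : j ^ 4 ≤ s y := by omega
        exact_mod_cast this
      have h24 : (r / y.l2 + 1) / (s y : ℝ) ≤ (r / c + 1) / (j : ℝ) ^ 4 := by
        apply div_le_div₀ (by positivity) _ (by positivity) hsj'
        have : r / y.l2 ≤ r / c := div_le_div_of_nonneg_left hr0.le hc0 hl2
        linarith
      have h25 : 0 ≤ 5 / 2 + (j : ℝ) ^ 4 / 2 := by positivity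
      rw [hE]
      nlinarith
  have hsum : lsum M M (rt P) (fun y => |SS y.l1 y.l2 r|) ≤
      5 / 2 * r * (C / j) + (M : ℝ) ^ 2 * E := by
    calc lsum M M (rt P) (fun y => |SS y.l1 y.l2 r|)
        ≤ lsum M M (rt P) (fun y => 5 / 2 * r *
          (open Classical in if Bad κ j y (a y) (s y) then 1 / (y.l2 * (s y : ℝ)) else 0) + E) :=
          lsum_le _ _ _ _ _ hpt
      _ = lsum M M (rt P) (fun y => 5 / 2 * r *
          (open Classical in if Bad κ j y (a y) (s y) then 1 / (y.l2 * (s y : ℝ)) else 0)) +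
          lsum M M (rt P) (fun _ => E) := lsum_add _ _ _ _ _
      _ ≤ _ := by
        apply add_le_add
        · rw [lsum_mul]
          exact mul_le_mul_of_nonneg_left hRSb (by positivity)
        · exact lsum_le_const hP M hM1 _ E hE0 (fun _ _ => le_rfl)
  refine hsum.trans ?_
  -- arithmetic
  have hMR : (M : ℝ) ^ 2 = (C0 : ℝ) ^ 2 * (j : ℝ) ^ 2 := by
    rw [hM]; push_cast; ring
  have hj0 : (0 : ℝ) < j := by linarith
  have hn3 : (j : ℝ) ^ 3 ≤ n := by
    have h26 : 2 * (j : ℝ) ^ 3 ≤ 2 * n := by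
      refine e3.trans ?_
      rw [hκ]
      exact hpow
    linarith
  have hnn : (n : ℝ) * n ≤ 2 ^ j := by
    rw [hnR, ← pow_add]
    apply pow_le_pow_right₀ one_le_two
    omega
  have hnj : (j : ℝ) ^ 3 * n ≤ r := by
    calc (j : ℝ) ^ 3 * n ≤ n * n := mul_le_mul_of_nonneg_right hn3 (by positivity)
      _ ≤ 2 ^ j := hnn
      _ ≤ r := hr1
  have hj7 : (j : ℝ) ^ 7 ≤ r := by
    rw [one_mul, h2j] at e4
    exact e4.trans hr1
  have hjr : (j : ℝ) ^ 2 * E ≤ (5 / 2 * (1 / c + 1) + 1 / 2 + 5 / 2 + 1 / 2) * (r / j) := by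
    have k1 : (j : ℝ) ^ 2 * ((r / c + 1) / (j : ℝ) ^ 4) ≤ (1 / c + 1) * (r / j) := by
      have h27 : (j : ℝ) ^ 2 * ((r / c + 1) / (j : ℝ) ^ 4) = (r / c + 1) / (j : ℝ) ^ 2 := by
        field_simp
      rw [h27]
      have h28 : (r / c + 1) / (j : ℝ) ^ 2 ≤ (r / c + r) / j := by
        apply div_le_div₀ (by positivity) _ hj0 (by nlinarith)
        have h29 : (1 : ℝ) ≤ r := by
          have : (1 : ℝ) ≤ (j : ℝ) ^ 7 := one_le_pow₀ hjR
          linarith
        linarith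
      refine h28.trans (le_of_eq ?_)
      field_simp
    have k2 : (j : ℝ) ^ 2 * (n : ℝ) ≤ r / j := by
      rw [le_div_iff₀ hj0]
      nlinarith
    have k3 : (j : ℝ) ^ 2 ≤ r / j := by
      rw [le_div_iff₀ hj0]
      have h30 : (j : ℝ) ^ 2 * j ≤ (j : ℝ) ^ 7 := by
        have : (j : ℝ) ^ 2 * j = (j : ℝ) ^ 3 := by ring
        rw [this]
        exact pow_le_pow_right₀ hjR (by norm_num)
      linarith
    have k4 : (j : ℝ) ^ 2 * (j : ℝ) ^ 4 ≤ r / j := by
      rw [le_div_iff₀ hj0]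
      have : (j : ℝ) ^ 2 * (j : ℝ) ^ 4 * j = (j : ℝ) ^ 7 := by ring
      linarith
    have k5 : (j : ℝ) ^ 2 * E = 5 / 2 * ((j : ℝ) ^ 2 * ((r / c + 1) / (j : ℝ) ^ 4)) +
        1 / 2 * ((j : ℝ) ^ 2 * (n : ℝ)) + 5 / 2 * (j : ℝ) ^ 2 + 1 / 2 * ((j : ℝ) ^ 2 * (j : ℝ) ^ 4) := by
      rw [hE]; ring
    rw [k5]
    nlinarith
  rw [hMR]
  have h31 : (C0 : ℝ) ^ 2 * (j : ℝ) ^ 2 * E ≤
      (C0 : ℝ) ^ 2 * ((5 / 2 * (1 / c + 1) + 1 / 2 + 5 / 2 + 1 / 2) * (r / j)) := by
    rw [mul_assoc]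
    exact mul_le_mul_of_nonneg_left hjr (by positivity)
  have h32 : 5 / 2 * r * (C / j) = 5 / 2 * C * (r / j) := by ring
  have h33 : (5 / 2 * C + (C0 : ℝ) ^ 2 * (5 / 2 * (1 / c + 1) + 1 / 2 + 5 / 2 + 1 / 2)) * r / j =
      5 / 2 * C * (r / j) +
        (C0 : ℝ) ^ 2 * ((5 / 2 * (1 / c + 1) + 1 / 2 + 5 / 2 + 1 / 2) * (r / j)) := by ring
  rw [h32, h33]
  linarith

end AM
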